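import Pool.Agent.Helper57.QZ.Stmts2

/-! Row TL of the second sheet of QZ: the short Dirichlet polynomial is rarely large. -/

set_option autoImplicit false

namespace Pool.Agent.Helper57.QZ

open MeasureTheory Set Filter Topology

namespace TL47

/-- `n^{-it}` -/
noncomputable def E (n : ℕ) (t : ℝ) : ℂ := Complex.exp (-((t * Real.log n : ℝ) * Complex.I))

/-- the product of the entries -/
def NN {k : ℕ} (x : Fin k → ℕ) : ℕ := ∏ i, x i

lemma E_cont (n : ℕ) : Continuous (E n) := by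
  unfold E
  fun_prop

lemma E_prod {k : ℕ} (x : Fin k → ℕ) (hx : ∀ i, x i ≠ 0) (t : ℝ) :
    ∏ i, E (x i) t = E (NN x) t := by
  unfold E NN
  rw [← Complex.exp_sum]
  congr 1
  rw [Nat.cast_prod, Real.log_prod (fun i _ => by exact_mod_cast hx i)]
  push_cast
  rw [Finset.sum_neg_distrib, ← Finset.sum_mul, ← Finset.mul_sum]

lemma E_conj (m n : ℕ) (t : ℝ) : E m t * (starRingEnd ℂ) (E n t) =
    Complex.exp ((-((Real.log m - Real.log n : ℝ) : ℂ) * Complex.I) * t) := by
  unfold E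
  rw [← Complex.exp_conj, ← Complex.exp_add]
  congr 1
  simp only [map_neg, map_mul, Complex.conj_ofReal, Complex.conj_I]
  push_cast
  ring

/-- the off-diagonal integrals -/
lemma int_le {m n : ℕ} (hm : 1 ≤ m) (hn : 1 ≤ n) (hmn : m ≠ n) {M : ℝ} (hmM : (m : ℝ) ≤ M)
    (hnM : (n : ℝ) ≤ M) (a b : ℝ) :
    ‖∫ t in a..b, E m t * (starRingEnd ℂ) (E n t)‖ ≤ 2 * M := by
  have hm0 : (0 : ℝ) < m := by exact_mod_cast hm
  have hn0 : (0 : ℝ) < n := by exact_mod_cast hn
  have hM0 : 0 < M := hm0.trans_le hmM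
  set w : ℝ := Real.log m - Real.log n with hw
  have hwl : 1 / M ≤ |w| := by
    have key : ∀ r s : ℕ, 1 ≤ s → s < r → (r : ℝ) ≤ M → 1 / M ≤ Real.log r - Real.log s := by
      intro r s hs hsr hrM
      have hs0 : (0 : ℝ) < s := by exact_mod_cast hs
      have hr0 : (0 : ℝ) < r := by
        have : (s : ℝ) < r := by exact_mod_cast hsr
        linarith
      have h1 := Real.one_sub_inv_le_log_of_pos (div_pos hr0 hs0)
      rw [Real.log_div hr0.ne' hs0.ne', inv_div] at h1
      have h2 : 1 / M ≤ 1 / r := one_div_le_one_div_of_le hr0 hrM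
      have h3 : (1 : ℝ) / r ≤ 1 - s / r := by
        rw [div_le_iff₀ hr0, sub_mul, div_mul_cancel₀ _ hr0.ne']
        have : (s : ℝ) + 1 ≤ r := by exact_mod_cast hsr
        linarith
      linarith
    rcases lt_or_gt_of_ne hmn with h | h
    · have := key n m hm h hnM
      rw [hw, abs_sub_comm]
      exact this.trans (le_abs_self _)
    · have := key m n hn h hmM
      exact this.trans (le_abs_self _)
  have hw0 : w ≠ 0 := by
    intro h0
    rw [h0, abs_zero] at hwl
    have : 0 < 1 / M := by positivity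
    linarith
  have hc : (-(w : ℂ) * Complex.I) ≠ 0 := by
    apply mul_ne_zero
    · rw [neg_ne_zero]
      exact_mod_cast hw0
    · exact Complex.I_ne_zero
  have e1 : (fun t : ℝ => E m t * (starRingEnd ℂ) (E n t)) =
      fun t : ℝ => Complex.exp ((-(w : ℂ) * Complex.I) * t) := by
    funext t
    rw [E_conj]
  rw [e1, integral_exp_mul_complex hc, norm_div]
  have h5 : ‖(-(w : ℂ) * Complex.I)‖ = |w| := by
    rw [norm_mul, norm_neg, Complex.norm_I, mul_one, Complex.norm_real, Real.norm_eq_abs]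
  have h6 : ∀ t : ℝ, ‖Complex.exp ((-(w : ℂ) * Complex.I) * t)‖ = 1 := by
    intro t
    have : (-(w : ℂ) * Complex.I) * t = ((-(w * t) : ℝ) : ℂ) * Complex.I := by
      push_cast
      ring
    rw [this, Complex.norm_exp_ofReal_mul_I]
  have h7 : ‖Complex.exp ((-(w : ℂ) * Complex.I) * b) - Complex.exp ((-(w : ℂ) * Complex.I) * a)‖
      ≤ 2 := by
    refine (norm_sub_le _ _).trans ?_
    rw [h6, h6]
    norm_num
  rw [h5]
  have hwpos : 0 < |w| := abs_pos.mpr hw0
  rw [div_le_iff₀ hwpos]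
  have h8 : 1 ≤ M * |w| := by
    rw [div_le_iff₀ hM0] at hwl
    linarith
  nlinarith

/-- permutations -/
lemma card_fib (P : Finset ℕ) (hP : ∀ p ∈ P, p.Prime) (k : ℕ) (x : Fin k → ℕ)
    (hx : x ∈ Fintype.piFinset fun _ : Fin k => P) :
    ((Fintype.piFinset fun _ : Fin k => P).filter (fun y => NN y = NN x)).card ≤ k.factorial := by
  classical
  have hprod : ∀ y : Fin k → ℕ, y ∈ (Fintype.piFinset fun _ : Fin k => P) →
      (List.ofFn y).Perm (NN y).primeFactorsList := by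
    intro y hy
    apply Nat.primeFactorsList_unique
    · rw [List.prod_ofFn]
      rfl
    · intro p hp
      rw [List.mem_ofFn] at hp
      obtain ⟨i, rfl⟩ := hp
      exact hP _ ((Fintype.mem_piFinset.mp hy) i)
  calc ((Fintype.piFinset fun _ : Fin k => P).filter (fun y => NN y = NN x)).card
      ≤ ((List.ofFn x).permutations.toFinset).card := by
        apply Finset.card_le_card_of_injOn (fun y => List.ofFn y)
        · intro y hy
          have hy' := Finset.mem_filter.mp (Finset.mem_coe.mp hy)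
          rw [Finset.mem_coe, List.mem_toFinset, List.mem_permutations]
          have h1 := hprod y hy'.1
          rw [hy'.2] at h1
          exact h1.trans (hprod x hx).symm
        · intro y _ y' _ h
          exact List.ofFn_injective h
    _ ≤ (List.ofFn x).permutations.length := List.toFinset_card_le _
    _ = k.factorial := by rw [List.length_permutations, List.length_ofFn]

/-- the mean value -/
lemma mv (P : Finset ℕ) (hP : ∀ p ∈ P, p.Prime) (M : ℝ) (hM : ∀ p ∈ P, (p : ℝ) ≤ M) (hM1 : 1 ≤ M)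
    (a : ℕ → ℂ) (k : ℕ) (T : ℝ) (hT : 0 < T) :
    ∫ t in T..(2 * T), ‖∑ p ∈ P, a p * E p t‖ ^ (2 * k) ≤
      T * (k.factorial * (∑ p ∈ P, ‖a p‖ ^ 2) ^ k) + 2 * M ^ k * (∑ p ∈ P, ‖a p‖) ^ (2 * k) := by
  classical
  set X := Fintype.piFinset fun _ : Fin k => P with hX
  have hXm : ∀ x ∈ X, ∀ i, x i ∈ P := fun x hx i => (Fintype.mem_piFinset.mp hx) i
  have hN1 : ∀ x ∈ X, 1 ≤ NN x := by
    intro x hx
    unfold NN
    exact Nat.one_le_iff_ne_zero.mpr
      (Finset.prod_ne_zero_iff.mpr fun i _ => (hP _ (hXm x hx i)).ne_zero)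
  have hNM : ∀ x ∈ X, (NN x : ℝ) ≤ M ^ k := by
    intro x hx
    unfold NN
    rw [Nat.cast_prod]
    calc ∏ i, ((x i : ℕ) : ℝ) ≤ ∏ _i : Fin k, M :=
          Finset.prod_le_prod (fun i _ => Nat.cast_nonneg _) (fun i _ => hM _ (hXm x hx i))
      _ = M ^ k := by simp
  let A : (Fin k → ℕ) → ℂ := fun x => ∏ i, a (x i)
  have hD : ∀ t, (∑ p ∈ P, a p * E p t) ^ k = ∑ x ∈ X, A x * E (NN x) t := by
    intro t
    rw [Finset.sum_pow']
    apply Finset.sum_congr rfl
    intro x hx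
    rw [Finset.prod_mul_distrib, E_prod x (fun i => (hP _ (hXm x hx i)).ne_zero)]
  have hsq : ∀ t, ((‖∑ p ∈ P, a p * E p t‖ ^ (2 * k) : ℝ) : ℂ) =
      ∑ x ∈ X, ∑ y ∈ X, (A x * (starRingEnd ℂ) (A y)) * (E (NN x) t * (starRingEnd ℂ) (E (NN y) t)) := by
    intro t
    have h1 : ‖∑ p ∈ P, a p * E p t‖ ^ (2 * k) = ‖(∑ p ∈ P, a p * E p t) ^ k‖ ^ 2 := by
      rw [norm_pow, ← pow_mul, mul_comm k 2]
    rw [h1, hD]
    push_cast
    rw [← Complex.mul_conj', map_sum, Finset.sum_mul_sum]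
    apply Finset.sum_congr rfl
    intro x _
    apply Finset.sum_congr rfl
    intro y _
    rw [map_mul]
    ring
  have hint : ∀ x y : Fin k → ℕ, IntervalIntegrable
      (fun t => (A x * (starRingEnd ℂ) (A y)) * (E (NN x) t * (starRingEnd ℂ) (E (NN y) t)))
      volume T (2 * T) := by
    intro x y
    apply Continuous.intervalIntegrable
    have h1 := E_cont (NN x)
    have h2 := E_cont (NN y)
    exact continuous_const.mul (h1.mul (Complex.continuous_conj.comp h2))
  have hI : ((∫ t in T..(2 * T), ‖∑ p ∈ P, a p * E p t‖ ^ (2 * k) : ℝ) : ℂ) =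
      ∑ x ∈ X, ∑ y ∈ X, (A x * (starRingEnd ℂ) (A y)) *
        ∫ t in T..(2 * T), E (NN x) t * (starRingEnd ℂ) (E (NN y) t) := by
    rw [← intervalIntegral.integral_ofReal]
    simp_rw [hsq]
    rw [intervalIntegral.integral_finsetSum]
    · apply Finset.sum_congr rfl
      intro x _
      rw [intervalIntegral.integral_finsetSum]
      · apply Finset.sum_congr rfl
        intro y _
        rw [intervalIntegral.integral_const_mul]
      · intro y _
        exact hint x y
    · intro x _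
      have : (fun t => ∑ y ∈ X, (A x * (starRingEnd ℂ) (A y)) *
          (E (NN x) t * (starRingEnd ℂ) (E (NN y) t))) =
          ∑ y ∈ X, fun t => (A x * (starRingEnd ℂ) (A y)) *
          (E (NN x) t * (starRingEnd ℂ) (E (NN y) t)) := by
        funext t
        rw [Finset.sum_apply]
      rw [this]
      exact IntervalIntegrable.sum _ (fun y _ => hint x y)
  have hb : ∫ t in T..(2 * T), ‖∑ p ∈ P, a p * E p t‖ ^ (2 * k) ≤
      ∑ x ∈ X, ∑ y ∈ X, (‖A x‖ * ‖A y‖) * ((if NN y = NN x then T else 0) + 2 * M ^ k) := by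
    calc ∫ t in T..(2 * T), ‖∑ p ∈ P, a p * E p t‖ ^ (2 * k)
        ≤ ‖((∫ t in T..(2 * T), ‖∑ p ∈ P, a p * E p t‖ ^ (2 * k) : ℝ) : ℂ)‖ := by
          rw [Complex.norm_real]
          exact le_abs_self _
      _ ≤ _ := by
          rw [hI]
          refine (norm_sum_le _ _).trans (Finset.sum_le_sum fun x hx => ?_)
          refine (norm_sum_le _ _).trans (Finset.sum_le_sum fun y hy => ?_)
          rw [norm_mul, norm_mul, RCLike.norm_conj]
          apply mul_le_mul_of_nonneg_left _ (by positivity)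
          by_cases h : NN y = NN x
          · rw [if_pos h, h]
            have h1 : ∀ t, E (NN x) t * (starRingEnd ℂ) (E (NN x) t) = 1 := by
              intro t
              rw [E_conj]
              simp
            simp_rw [h1]
            rw [intervalIntegral.integral_const]
            have h2 : ‖(2 * T - T) • (1 : ℂ)‖ = T := by
              rw [norm_smul, norm_one, mul_one, Real.norm_eq_abs, abs_of_pos (by linarith)]
              ring
            rw [h2]
            have : 0 ≤ 2 * M ^ k := by positivity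
            linarith
          · rw [if_neg h, zero_add]
            exact int_le (hN1 x hx) (hN1 y hy) (fun h' => h h'.symm) (hNM x hx) (hNM y hy) _ _
  refine hb.trans ?_
  simp_rw [mul_add, Finset.sum_add_distrib]
  apply add_le_add
  · -- diagonal
    have hAsq : ∑ x ∈ X, ‖A x‖ ^ 2 = (∑ p ∈ P, ‖a p‖ ^ 2) ^ k := by
      rw [Finset.sum_pow']
      apply Finset.sum_congr rfl
      intro x _
      simp only [A, norm_prod, Finset.prod_pow]
    have h1 : ∑ x ∈ X, ∑ y ∈ X, ‖A x‖ * ‖A y‖ * (if NN y = NN x then T else 0) ≤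
        ∑ x ∈ X, ∑ y ∈ X, (‖A x‖ ^ 2 / 2 * (if NN y = NN x then T else 0) +
          ‖A y‖ ^ 2 / 2 * (if NN x = NN y then T else 0)) := by
      apply Finset.sum_le_sum
      intro x _
      apply Finset.sum_le_sum
      intro y _
      by_cases h : NN y = NN x
      · rw [if_pos h, if_pos h.symm, ← add_mul]
        apply mul_le_mul_of_nonneg_right _ hT.le
        nlinarith [sq_nonneg (‖A x‖ - ‖A y‖)]
      · rw [if_neg h, if_neg (fun h' => h h'.symm)]
        simp
    have h2 : ∑ x ∈ X, ∑ y ∈ X, ‖A x‖ ^ 2 / 2 * (if NN y = NN x then T else 0) ≤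
        T * (k.factorial * (∑ p ∈ P, ‖a p‖ ^ 2) ^ k) / 2 := by
      rw [← hAsq, Finset.mul_sum, Finset.mul_sum, Finset.sum_div]
      apply Finset.sum_le_sum
      intro x hx
      rw [← Finset.mul_sum, ← Finset.sum_filter, Finset.sum_const, nsmul_eq_mul]
      have h3 : (((X.filter (fun y => NN y = NN x)).card : ℕ) : ℝ) ≤ k.factorial := by
        exact_mod_cast card_fib P hP k x hx
      have h4 : 0 ≤ ‖A x‖ ^ 2 / 2 * T := by positivity
      calc ‖A x‖ ^ 2 / 2 * (((X.filter (fun y => NN y = NN x)).card : ℕ) * T)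
          = (‖A x‖ ^ 2 / 2 * T) * (((X.filter (fun y => NN y = NN x)).card : ℕ) : ℝ) := by ring
        _ ≤ (‖A x‖ ^ 2 / 2 * T) * k.factorial := mul_le_mul_of_nonneg_left h3 h4
        _ = T * (k.factorial * ‖A x‖ ^ 2) / 2 := by ring
    have h5 : ∑ x ∈ X, ∑ y ∈ X, ‖A y‖ ^ 2 / 2 * (if NN x = NN y then T else 0) ≤
        T * (k.factorial * (∑ p ∈ P, ‖a p‖ ^ 2) ^ k) / 2 := by
      rw [Finset.sum_comm]
      exact h2
    refine h1.trans ?_
    simp_rw [Finset.sum_add_distrib]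
    linarith
  · have h1 : ∑ x ∈ X, ∑ y ∈ X, ‖A x‖ * ‖A y‖ * (2 * M ^ k) =
        2 * M ^ k * (∑ x ∈ X, ‖A x‖) ^ 2 := by
      rw [sq, Finset.sum_mul_sum, Finset.mul_sum]
      apply Finset.sum_congr rfl
      intro x _
      rw [Finset.mul_sum]
      apply Finset.sum_congr rfl
      intro y _
      ring
    have h2 : ∑ x ∈ X, ‖A x‖ = (∑ p ∈ P, ‖a p‖) ^ k := by
      rw [Finset.sum_pow']
      apply Finset.sum_congr rfl
      intro x _
      simp only [A, norm_prod]
    rw [h1, h2, ← pow_mul, mul_comm k 2]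

/-- Markov -/
lemma markov (P : Finset ℕ) (a : ℕ → ℂ) (k : ℕ) (T η : ℝ) (hT : 0 < T) (hη : 0 < η) :
    η ^ (2 * k) * volume.real {t : ℝ | t ∈ Icc T (2 * T) ∧ η ≤ ‖∑ p ∈ P, a p * E p t‖} ≤
      ∫ t in T..(2 * T), ‖∑ p ∈ P, a p * E p t‖ ^ (2 * k) := by
  have hc : Continuous fun t => ‖∑ p ∈ P, a p * E p t‖ := by
    apply Continuous.norm
    apply continuous_finsetSum
    intro p _
    exact continuous_const.mul (E_cont p)
  have h1 := mul_meas_ge_le_integral_of_nonneg
    (μ := volume.restrict (Icc T (2 * T))) (f := fun t => ‖∑ p ∈ P, a p * E p t‖ ^ (2 * k))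
    (Filter.Eventually.of_forall fun t => by positivity)
    ((hc.pow _).integrableOn_Icc) (η ^ (2 * k))
  rw [intervalIntegral.integral_of_le (by linarith), ← integral_Icc_eq_integral_Ioc]
  refine le_trans ?_ h1
  apply mul_le_mul_of_nonneg_left _ (by positivity)
  have hms : MeasurableSet {x : ℝ | η ^ (2 * k) ≤ ‖∑ p ∈ P, a p * E p x‖ ^ (2 * k)} :=
    measurableSet_le measurable_const (hc.pow _).measurable
  rw [measureReal_restrict_apply hms]
  apply measureReal_mono
  · intro t ht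
    exact ⟨pow_le_pow_left₀ hη.le ht.2 _, ht.1⟩
  · exact ne_top_of_le_ne_top (by simp) (measure_mono inter_subset_right)

/-- the sum of the squares -/
lemma sum_sq (ε C : ℝ) (hε : 0 < ε) (hC : 0 < C) (z : ℕ) (hz : 1 ≤ z) (u : ℕ → ℂ)
    (hu : ∀ p : ℕ, z < p → ‖u p‖ ≤ C * ((p : ℝ) ^ (-(1 / 2 + ε)) * Real.log p)) :
    ∑ p ∈ Pz z, ‖u p‖ ^ 2 ≤
      (C ^ 2 * (16 / ε ^ 2) * ∑' n : ℕ, (n : ℝ) ^ (-(1 + ε / 2))) * (z : ℝ) ^ (-ε) := by
  have hs : Summable fun n : ℕ => (n : ℝ) ^ (-(1 + ε / 2)) := by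
    rw [Real.summable_nat_rpow]
    linarith
  have hz0 : (0 : ℝ) < z := by exact_mod_cast hz
  calc ∑ p ∈ Pz z, ‖u p‖ ^ 2
      ≤ ∑ p ∈ Pz z, (C ^ 2 * (16 / ε ^ 2) * (z : ℝ) ^ (-ε)) * (p : ℝ) ^ (-(1 + ε / 2)) := by
        apply Finset.sum_le_sum
        intro p hp
        rw [Pz, Finset.mem_filter, Finset.mem_Icc] at hp
        have hzp : z < p := by omega
        have hp0 : (0 : ℝ) < p := by
          have : (z : ℝ) < p := by exact_mod_cast hzp
          linarith
        have hp1 : (1 : ℝ) ≤ p := by exact_mod_cast (by omega : 1 ≤ p)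
        have h1 := hu p hzp
        have h2 : Real.log p ≤ (p : ℝ) ^ (ε / 4) / (ε / 4) :=
          Real.log_le_rpow_div hp0.le (by positivity)
        have hlog : 0 ≤ Real.log p := Real.log_nonneg hp1
        have h3 : ‖u p‖ ≤ C * ((p : ℝ) ^ (-(1 / 2 + ε)) * ((p : ℝ) ^ (ε / 4) / (ε / 4))) := by
          refine h1.trans ?_
          gcongr
        have h4 : ‖u p‖ ^ 2 ≤
            (C * ((p : ℝ) ^ (-(1 / 2 + ε)) * ((p : ℝ) ^ (ε / 4) / (ε / 4)))) ^ 2 :=
          pow_le_pow_left₀ (norm_nonneg _) h3 2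
        have h5 : (C * ((p : ℝ) ^ (-(1 / 2 + ε)) * ((p : ℝ) ^ (ε / 4) / (ε / 4)))) ^ 2 =
            C ^ 2 * (16 / ε ^ 2) * ((p : ℝ) ^ (-ε) * (p : ℝ) ^ (-(1 + ε / 2))) := by
          have e1 : (p : ℝ) ^ (-ε) * (p : ℝ) ^ (-(1 + ε / 2)) =
              ((p : ℝ) ^ (-(1 / 2 + ε)) * (p : ℝ) ^ (ε / 4)) ^ 2 := by
            rw [← Real.rpow_add hp0, ← Real.rpow_add hp0, ← Real.rpow_natCast, ← Real.rpow_mul hp0.le]
            congr 1
            push_cast
            ring
          rw [e1]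
          field_simp
          ring
        have h6 : (p : ℝ) ^ (-ε) ≤ (z : ℝ) ^ (-ε) := by
          apply Real.rpow_le_rpow_of_nonpos hz0 (by exact_mod_cast hzp.le) (by linarith)
        calc ‖u p‖ ^ 2 ≤ C ^ 2 * (16 / ε ^ 2) * ((p : ℝ) ^ (-ε) * (p : ℝ) ^ (-(1 + ε / 2))) :=
              h4.trans h5.le
          _ ≤ C ^ 2 * (16 / ε ^ 2) * ((z : ℝ) ^ (-ε) * (p : ℝ) ^ (-(1 + ε / 2))) := by
              gcongr
          _ = (C ^ 2 * (16 / ε ^ 2) * (z : ℝ) ^ (-ε)) * (p : ℝ) ^ (-(1 + ε / 2)) := by ring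
    _ = (C ^ 2 * (16 / ε ^ 2) * (z : ℝ) ^ (-ε)) * ∑ p ∈ Pz z, (p : ℝ) ^ (-(1 + ε / 2)) := by
        rw [Finset.mul_sum]
    _ ≤ (C ^ 2 * (16 / ε ^ 2) * (z : ℝ) ^ (-ε)) * ∑' n : ℕ, (n : ℝ) ^ (-(1 + ε / 2)) := by
        apply mul_le_mul_of_nonneg_left _ (by positivity)
        exact hs.sum_le_tsum _ (fun n _ => by positivity)
    _ = _ := by ring

/-- the sum of the absolute values -/
lemma sum_abs (ε C : ℝ) (hε : 0 < ε) (hC : 0 < C) (z : ℕ) (hz : 1 ≤ z) (u : ℕ → ℂ)
    (hu : ∀ p : ℕ, z < p → ‖u p‖ ≤ C * ((p : ℝ) ^ (-(1 / 2 + ε)) * Real.log p)) :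
    ∑ p ∈ Pz z, ‖u p‖ ≤ 2 * C * (z : ℝ) ^ 6 := by
  calc ∑ p ∈ Pz z, ‖u p‖ ≤ ∑ p ∈ Pz z, 2 * C := by
        apply Finset.sum_le_sum
        intro p hp
        rw [Pz, Finset.mem_filter, Finset.mem_Icc] at hp
        have hzp : z < p := by omega
        have hp1 : (1 : ℝ) ≤ p := by exact_mod_cast (by omega : 1 ≤ p)
        have hp0 : (0 : ℝ) < p := by linarith
        have h2 : Real.log p ≤ (p : ℝ) ^ (1 / 2 : ℝ) / (1 / 2) :=
          Real.log_le_rpow_div hp0.le (by norm_num)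
        have h3 : (p : ℝ) ^ (-(1 / 2 + ε)) * Real.log p ≤ 2 := by
          calc (p : ℝ) ^ (-(1 / 2 + ε)) * Real.log p
              ≤ (p : ℝ) ^ (-(1 / 2 + ε)) * ((p : ℝ) ^ (1 / 2 : ℝ) / (1 / 2)) := by gcongr
            _ = 2 * (p : ℝ) ^ (-ε) := by
                have e1 : (p : ℝ) ^ (-ε) = (p : ℝ) ^ (-(1 / 2 + ε)) * (p : ℝ) ^ (1 / 2 : ℝ) := by
                  rw [← Real.rpow_add hp0]
                  congr 1
                  ring
                rw [e1]
                ring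
            _ ≤ 2 * 1 := by
                gcongr
                exact Real.rpow_le_one_of_one_le_of_nonpos hp1 (by linarith)
            _ = 2 := by ring
        calc ‖u p‖ ≤ C * ((p : ℝ) ^ (-(1 / 2 + ε)) * Real.log p) := hu p hzp
          _ ≤ C * 2 := by gcongr
          _ = 2 * C := by ring
    _ = (Pz z).card * (2 * C) := by rw [Finset.sum_const, nsmul_eq_mul]
    _ ≤ (z : ℝ) ^ 6 * (2 * C) := by
        apply mul_le_mul_of_nonneg_right _ (by positivity)
        have h1 : (Pz z).card ≤ z ^ 6 := by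
          calc (Pz z).card ≤ (Finset.Icc (z + 1) (z ^ 6)).card := Finset.card_filter_le _ _
            _ ≤ z ^ 6 := by
                rw [Nat.card_Icc]
                omega
        exact_mod_cast h1
    _ = 2 * C * (z : ℝ) ^ 6 := by ring

end TL47

open TL47

theorem st_TL : ST_TL := by
  intro ε hε κ hκ C η hC hη
  have hε0 : 0 < ε := hε.1
  set S : ℝ := ∑' n : ℕ, (n : ℝ) ^ (-(1 + ε / 2)) with hS
  have hS0 : 0 ≤ S := tsum_nonneg fun n => by positivity
  set B : ℝ := C ^ 2 * (16 / ε ^ 2) * S with hB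
  have hB0 : 0 ≤ B := by positivity
  set G : ℝ := max 1 (4 * C ^ 2 / η ^ 2) with hG
  have hG1 : 1 ≤ G := le_max_left _ _
  refine ⟨max 3 (2 / ε), le_max_left _ _, fun A hA => ?_⟩
  have hA3 : 3 ≤ A := (le_max_left _ _).trans hA
  have hA2 : 2 ≤ A * ε := by
    have := (le_max_right 3 (2 / ε)).trans hA
    rwa [div_le_iff₀ hε0] at this
  -- the conditions on L = log T
  have hlim : ∀ᶠ L : ℝ in atTop, 3 * (3 + Real.log G + 18 * A * Real.log L) ≤ L ^ κ := by
    have h1 : ∀ᶠ L : ℝ in atTop, 54 * A * |Real.log L| ≤ 1 / 2 * |L ^ κ| := by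
      have h2 := (isLittleO_log_rpow_atTop hκ.1).def (show (0 : ℝ) < 1 / (108 * A) by positivity)
      filter_upwards [h2] with L hL
      rw [Real.norm_eq_abs, Real.norm_eq_abs] at hL
      calc 54 * A * |Real.log L| ≤ 54 * A * (1 / (108 * A) * |L ^ κ|) := by gcongr
        _ = 1 / 2 * |L ^ κ| := by
            field_simp
            ring
    have h3 : ∀ᶠ L : ℝ in atTop, 2 * (3 * (3 + Real.log G)) ≤ L ^ κ :=
      (tendsto_rpow_atTop hκ.1).eventually_ge_atTop _
    filter_upwards [h1, h3, eventually_ge_atTop 1] with L h4 h5 h6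
    have h7 : 0 ≤ L ^ κ := by positivity
    rw [abs_of_nonneg h7] at h4
    have h8 := le_abs_self (Real.log L)
    have h9 : 54 * A * Real.log L ≤ 54 * A * |Real.log L| := by gcongr
    linarith
  obtain ⟨L₀, hL₀⟩ := eventually_atTop.mp (hlim.and ((eventually_ge_atTop (1 : ℝ)).and
    (eventually_ge_atTop (6 * B * Real.exp 2 / η ^ 2))))
  refine ⟨max 4 (Real.exp L₀), le_max_left _ _, fun T hT u hu => ?_⟩
  have hT4 : 4 ≤ T := (le_max_left _ _).trans hT
  have hT0 : 0 < T := by linarith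
  set L := Real.log T with hL
  have hLL₀ : L₀ ≤ L := by
    rw [hL, Real.le_log_iff_exp_le hT0]
    exact (le_max_right _ _).trans hT
  obtain ⟨f5, f1, f4⟩ := hL₀ L hLL₀
  have hTL : Real.exp L = T := Real.exp_log hT0
  have hL0 : 0 < L := by linarith
  set z := zA A T with hz
  have hLA1 : 1 ≤ L ^ A := Real.one_le_rpow f1 (by linarith)
  have hz_le : (z : ℝ) ≤ L ^ A := Nat.floor_le (by positivity)
  have hz1 : 1 ≤ z := by
    rw [hz, zA]
    exact Nat.le_floor (by simpa using hLA1)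
  have hz0 : (0 : ℝ) < z := by exact_mod_cast hz1
  have hz_ge : L ^ A / 2 ≤ z := by
    have h1 : L ^ A < z + 1 := Nat.lt_floor_add_one _
    have h2 : (1 : ℝ) ≤ z := by exact_mod_cast hz1
    linarith
  -- k
  have hx1 : 1 ≤ L ^ (1 - κ) := Real.one_le_rpow f1 (by linarith [hκ.2])
  set k : ℕ := ⌈L ^ (1 - κ)⌉₊ + 1 with hk
  have hk_ge : L ^ (1 - κ) ≤ k := by
    have := Nat.le_ceil (L ^ (1 - κ))
    rw [hk]
    push_cast
    linarith
  have hk_le : (k : ℝ) ≤ 3 * L ^ (1 - κ) := by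
    have := Nat.ceil_lt_add_one (show 0 ≤ L ^ (1 - κ) by positivity)
    rw [hk]
    push_cast
    linarith
  have hk1 : 1 ≤ k := by omega
  have hkL : (k : ℝ) ≤ 3 * L := by
    refine hk_le.trans ?_
    have : L ^ (1 - κ) ≤ L ^ (1 : ℝ) := Real.rpow_le_rpow_of_exponent_le f1 (by linarith [hκ.1])
    rw [Real.rpow_one] at this
    linarith
  -- the mean value
  have hmv := mv (Pz z) (fun p hp => (Finset.mem_filter.mp hp).2) ((z : ℝ) ^ 6)
    (fun p hp => by
      rw [Pz, Finset.mem_filter, Finset.mem_Icc] at hp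
      exact_mod_cast hp.1.2) (one_le_pow₀ (by exact_mod_cast hz1)) u k T hT0
  have hmk := markov (Pz z) u k T η hT0 hη
  have hsq := sum_sq ε C hε0 hC z hz1 u hu
  rw [← hS, ← hB] at hsq
  have hab := sum_abs ε C hε0 hC z hz1 u hu
  set V := volume.real {t : ℝ | t ∈ Icc T (2 * T) ∧ η ≤ ‖∑ p ∈ Pz z, u p * E p t‖} with hV
  have hgoal : volume.real {t : ℝ | t ∈ Icc T (2 * T) ∧
      η ≤ ‖∑ p ∈ Pz z, u p * Complex.exp (-((t * Real.log p : ℝ) * Complex.I))‖} = V := rfl
  rw [hgoal]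
  have hη2 : 0 < η ^ (2 * k) := by positivity
  -- the diagonal
  have hdiag : (k.factorial * (∑ p ∈ Pz z, ‖u p‖ ^ 2) ^ k) ≤
      η ^ (2 * k) * Real.exp (-(2 * k)) := by
    have h1 : (k.factorial : ℝ) ≤ (k : ℝ) ^ k := by exact_mod_cast Nat.factorial_le_pow k
    have h2 : (∑ p ∈ Pz z, ‖u p‖ ^ 2) ^ k ≤ (B * (z : ℝ) ^ (-ε)) ^ k :=
      pow_le_pow_left₀ (by positivity) hsq k
    have h3 : (z : ℝ) ^ (-ε) ≤ 2 / L ^ 2 := by
      have h31 : (z : ℝ) ^ (-ε) ≤ (L ^ A / 2) ^ (-ε) :=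
        Real.rpow_le_rpow_of_nonpos (by positivity) hz_ge (by linarith)
      have h32 : (L ^ A / 2) ^ (-ε) = (L ^ (A * ε))⁻¹ * 2 ^ ε := by
        rw [Real.div_rpow (by positivity) (by norm_num), ← Real.rpow_mul hL0.le,
          Real.rpow_neg (by norm_num : (0 : ℝ) ≤ 2), mul_neg, Real.rpow_neg hL0.le, div_inv_eq_mul]
      have h33 : L ^ (2 : ℝ) ≤ L ^ (A * ε) := Real.rpow_le_rpow_of_exponent_le f1 hA2
      have h34 : L ^ (2 : ℝ) = L ^ 2 := by
        rw [← Real.rpow_natCast]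
        norm_num
      rw [h34] at h33
      have h35 : (2 : ℝ) ^ ε ≤ 2 := by
        calc (2 : ℝ) ^ ε ≤ (2 : ℝ) ^ (1 : ℝ) :=
              Real.rpow_le_rpow_of_exponent_le (by norm_num) (by linarith [hε.2])
          _ = 2 := Real.rpow_one 2
      rw [h32] at h31
      refine h31.trans ?_
      rw [div_eq_inv_mul]
      have h36 : (L ^ (A * ε))⁻¹ ≤ (L ^ 2)⁻¹ := inv_anti₀ (by positivity) h33
      exact mul_le_mul h36 h35 (by positivity) (by positivity)
    have h4 : (k : ℝ) * (B * (z : ℝ) ^ (-ε)) ≤ η ^ 2 * Real.exp (-2) := by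
      have h41 : (k : ℝ) * (B * (z : ℝ) ^ (-ε)) ≤ (3 * L) * (B * (2 / L ^ 2)) := by
        gcongr
      have h42 : (3 * L) * (B * (2 / L ^ 2)) = 6 * B / L := by
        field_simp
        ring
      rw [h42] at h41
      refine h41.trans ?_
      rw [div_le_iff₀ hL0]
      rw [div_le_iff₀ (by positivity)] at f4
      have h43 : Real.exp (-2) * Real.exp 2 = 1 := by
        rw [← Real.exp_add]
        norm_num
      calc 6 * B = (6 * B * Real.exp 2) * Real.exp (-2) := by
            rw [mul_assoc, mul_comm (Real.exp 2), h43, mul_one]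
        _ ≤ (L * η ^ 2) * Real.exp (-2) := mul_le_mul_of_nonneg_right f4 (Real.exp_pos _).le
        _ = η ^ 2 * Real.exp (-2) * L := by ring
    calc (k.factorial * (∑ p ∈ Pz z, ‖u p‖ ^ 2) ^ k)
        ≤ (k : ℝ) ^ k * (B * (z : ℝ) ^ (-ε)) ^ k := by
          apply mul_le_mul h1 h2 (by positivity) (by positivity)
      _ = ((k : ℝ) * (B * (z : ℝ) ^ (-ε))) ^ k := (mul_pow _ _ _).symm
      _ ≤ (η ^ 2 * Real.exp (-2)) ^ k := pow_le_pow_left₀ (by positivity) h4 k
      _ = η ^ (2 * k) * Real.exp (-(2 * k)) := by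
          rw [mul_pow, ← pow_mul, ← Real.exp_nat_mul]
          congr 2
          ring
  -- the off-diagonal part
  have hoff : 2 * ((z : ℝ) ^ 6) ^ k * (∑ p ∈ Pz z, ‖u p‖) ^ (2 * k) ≤
      η ^ (2 * k) * (T * Real.exp (-(2 * k))) := by
    have h1 : (∑ p ∈ Pz z, ‖u p‖) ^ (2 * k) ≤ (2 * C * (z : ℝ) ^ 6) ^ (2 * k) :=
      pow_le_pow_left₀ (by positivity) hab _
    have h2 : 2 * ((z : ℝ) ^ 6) ^ k * (2 * C * (z : ℝ) ^ 6) ^ (2 * k) =
        2 * (4 * C ^ 2 * (z : ℝ) ^ 18) ^ k := by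
      have e1 : (2 * C * (z : ℝ) ^ 6) ^ (2 * k) = ((2 * C * (z : ℝ) ^ 6) ^ 2) ^ k := by
        rw [← pow_mul]
      rw [e1, mul_assoc, ← mul_pow]
      congr 2
      ring
    have h3 : 4 * C ^ 2 * (z : ℝ) ^ 18 ≤ η ^ 2 * (G * (L ^ A) ^ 18) := by
      have h31 : 4 * C ^ 2 ≤ η ^ 2 * G := by
        have : 4 * C ^ 2 / η ^ 2 ≤ G := le_max_right _ _
        rw [div_le_iff₀ (by positivity)] at this
        linarith
      have h32 : (z : ℝ) ^ 18 ≤ (L ^ A) ^ 18 := pow_le_pow_left₀ hz0.le hz_le _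
      calc 4 * C ^ 2 * (z : ℝ) ^ 18 ≤ (η ^ 2 * G) * (L ^ A) ^ 18 :=
            mul_le_mul h31 h32 (by positivity) (by positivity)
        _ = η ^ 2 * (G * (L ^ A) ^ 18) := by ring
    have h4 : G * (L ^ A) ^ 18 = Real.exp (Real.log G + 18 * A * Real.log L) := by
      rw [Real.exp_add, Real.exp_log (by linarith)]
      congr 1
      rw [← Real.rpow_natCast, ← Real.rpow_mul hL0.le, Real.rpow_def_of_pos hL0]
      congr 1
      push_cast
      ring
    have h5 : 2 * (G * (L ^ A) ^ 18) ^ k ≤ T * Real.exp (-(2 * k)) := by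
      rw [h4, ← Real.exp_nat_mul, ← hTL, ← Real.exp_add]
      have h51 : (2 : ℝ) ≤ Real.exp 1 := by
        have := Real.add_one_le_exp (1 : ℝ)
        linarith
      calc 2 * Real.exp (k * (Real.log G + 18 * A * Real.log L))
          ≤ Real.exp 1 * Real.exp (k * (Real.log G + 18 * A * Real.log L)) := by gcongr
        _ = Real.exp (1 + k * (Real.log G + 18 * A * Real.log L)) := by rw [Real.exp_add]
        _ ≤ Real.exp (L + -(2 * k)) := by
            apply Real.exp_le_exp.mpr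
            have hk1' : (1 : ℝ) ≤ k := by exact_mod_cast hk1
            have hlogG : 0 ≤ Real.log G := Real.log_nonneg hG1
            have hlogL : 0 ≤ Real.log L := Real.log_nonneg f1
            set W : ℝ := Real.log G + 18 * A * Real.log L with hW
            have hW0 : 0 ≤ W := by positivity
            have h52 : (k : ℝ) * (3 + W) ≤ (3 * L ^ (1 - κ)) * (3 + W) :=
              mul_le_mul_of_nonneg_right hk_le (by linarith)
            have h53 : (3 * L ^ (1 - κ)) * (3 + W) ≤ L := by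
              have h54 : 3 * (3 + W) ≤ L ^ κ := by
                rw [hW]
                linarith
              calc (3 * L ^ (1 - κ)) * (3 + W) = L ^ (1 - κ) * (3 * (3 + W)) := by ring
                _ ≤ L ^ (1 - κ) * L ^ κ := mul_le_mul_of_nonneg_left h54 (by positivity)
                _ = L := by
                    rw [← Real.rpow_add hL0]
                    norm_num
            nlinarith
    calc 2 * ((z : ℝ) ^ 6) ^ k * (∑ p ∈ Pz z, ‖u p‖) ^ (2 * k)
        ≤ 2 * ((z : ℝ) ^ 6) ^ k * (2 * C * (z : ℝ) ^ 6) ^ (2 * k) :=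
          mul_le_mul_of_nonneg_left h1 (by positivity)
      _ = 2 * (4 * C ^ 2 * (z : ℝ) ^ 18) ^ k := h2
      _ ≤ 2 * (η ^ 2 * (G * (L ^ A) ^ 18)) ^ k := by
          apply mul_le_mul_of_nonneg_left _ (by norm_num)
          exact pow_le_pow_left₀ (by positivity) h3 k
      _ = η ^ (2 * k) * (2 * (G * (L ^ A) ^ 18) ^ k) := by
          rw [mul_pow, ← pow_mul]
          ring
      _ ≤ η ^ (2 * k) * (T * Real.exp (-(2 * k))) := mul_le_mul_of_nonneg_left h5 hη2.le
  -- conclusion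
  have hsum : η ^ (2 * k) * V ≤ η ^ (2 * k) * (2 * (T * Real.exp (-(2 * k)))) := by
    calc η ^ (2 * k) * V ≤ _ := hmk
      _ ≤ _ := hmv
      _ ≤ T * (η ^ (2 * k) * Real.exp (-(2 * k))) + η ^ (2 * k) * (T * Real.exp (-(2 * k))) :=
          add_le_add (mul_le_mul_of_nonneg_left hdiag hT0.le) hoff
      _ = η ^ (2 * k) * (2 * (T * Real.exp (-(2 * k)))) := by ring
  have hV1 := le_of_mul_le_mul_left hsum hη2
  refine hV1.trans ?_
  have h1 : (2 : ℝ) ≤ Real.exp k := by
    have := Real.add_one_le_exp (k : ℝ)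
    have hk1' : (1 : ℝ) ≤ k := by exact_mod_cast hk1
    linarith
  calc 2 * (T * Real.exp (-(2 * k))) ≤ Real.exp k * (T * Real.exp (-(2 * k))) := by gcongr
    _ = T * Real.exp (-k) := by
        have : Real.exp (-(k : ℝ)) = Real.exp k * Real.exp (-(2 * k)) := by
          rw [← Real.exp_add]
          congr 1
          ring
        rw [this]
        ring
    _ ≤ T * Real.exp (-(L ^ (1 - κ))) := by
        gcongr

/-- the form with the dependency of the sheet -/
theorem TL_of (_ : ST_TPM) : ST_TL := st_TL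

end Pool.Agent.Helper57.QZ
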